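import Mathlib

/-!
# Discrete point X-rays at three noncollinear lattice points never determine convex lattice sets

Answer to Q1 (negative): for every set `P` of three noncollinear lattice points there are two
distinct convex lattice sets, disjoint from the lines through two points of `P`, with the same
discrete point X-rays at the three points of `P`.

Proof.  For the three points `(0,0), (1,0), (0,1)` there is a convex hexagon with the lattice
vertices `(7,8), (8,9), (40,45), (105,120), (15,18), (10,12)`, such that every line through one of the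
three points and a vertex of the hexagon contains exactly one vertex of `(7,8), (40,45), (15,18)` and
one vertex of `(8,9), (105,120), (10,12)`.  For general `P` take the image of the hexagon under the
affine map of `ℤ²` which maps `(0,0), (1,0), (0,1)` to `P`, and leave out every other vertex from the
set of all the lattice points of this hexagon.
-/

set_option autoImplicit false

namespace Pool.Agent.N195.Shelf.ThreePoints259ac5

/-- The point of the plane `ℝ²` given by a lattice point. -/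
def re (q : ℤ × ℤ) : ℝ × ℝ := ((q.1 : ℝ), (q.2 : ℝ))

/-- A convex lattice set: a finite set of lattice points which contains all the lattice points of
its convex hull. -/
def IsConvexLatticeSet (F : Finset (ℤ × ℤ)) : Prop :=
  ∀ q : ℤ × ℤ, re q ∈ convexHull ℝ (re '' (F : Set (ℤ × ℤ))) → q ∈ F

/-- The set `{z | a z₁ + b z₂ = c}` of the plane, a line if `(a, b) ≠ (0, 0)`. -/
def line (a b c : ℝ) : Set (ℝ × ℝ) := {z | a * z.1 + b * z.2 = c}

/-- The class `𝒞_P`: the convex lattice sets which are disjoint from every line through two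
distinct points of `P`. -/
def InClass (P F : Finset (ℤ × ℤ)) : Prop :=
  IsConvexLatticeSet F ∧
    ∀ p ∈ P, ∀ p' ∈ P, p ≠ p' → ∀ a b c : ℝ, (a, b) ≠ (0, 0) →
      re p ∈ line a b c → re p' ∈ line a b c → ∀ q ∈ F, re q ∉ line a b c

/-- The discrete point X-rays of `F₁` and `F₂` at `p` coincide: every line through `p` contains the
same number of points of `F₁` and of `F₂`. -/
def SameXRay (p : ℤ × ℤ) (F₁ F₂ : Finset (ℤ × ℤ)) : Prop :=
  ∀ a b c : ℝ, (a, b) ≠ (0, 0) → re p ∈ line a b c →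
    Set.ncard {q : ℤ × ℤ | q ∈ F₁ ∧ re q ∈ line a b c} =
      Set.ncard {q : ℤ × ℤ | q ∈ F₂ ∧ re q ∈ line a b c}

section Core

variable (p u v : ℤ × ℤ)

/-- the affine map of the lattice -/
def ph (x y : ℤ) : ℤ × ℤ := (p.1 + x * u.1 + y * v.1, p.2 + x * u.2 + y * v.2)

/-- the determinant -/
def DD : ℤ := u.1 * v.2 - u.2 * v.1

/-- the coordinates with respect to the affine frame -/
noncomputable def cX (z : ℝ × ℝ) : ℝ :=
  ((z.1 - p.1) * v.2 - (z.2 - p.2) * v.1) / (DD u v : ℝ)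

noncomputable def cY (z : ℝ × ℝ) : ℝ :=
  (u.1 * (z.2 - p.2) - u.2 * (z.1 - p.1)) / (DD u v : ℝ)

/-- an affine function in the coordinates -/
noncomputable def LL (m n k : ℝ) (z : ℝ × ℝ) : ℝ := m * cX p u v z + n * cY p u v z + k

lemma LL_comb (m n k : ℝ) (z w : ℝ × ℝ) (a b : ℝ) (hab : a + b = 1) :
    LL p u v m n k (a • z + b • w) = a * LL p u v m n k z + b * LL p u v m n k w := by
  have hb : b = 1 - a := by linarith
  subst hb
  simp only [LL, cX, cY, Prod.fst_add, Prod.snd_add, Prod.smul_fst, Prod.smul_snd, smul_eq_mul]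
  ring

lemma convex_LL (m n k : ℝ) : Convex ℝ {z | 0 ≤ LL p u v m n k z} := by
  intro z hz w hw a b ha hb hab
  simp only [Set.mem_ofPred_eq] at *
  rw [LL_comb p u v m n k z w a b hab]
  positivity

lemma convex_LL' (m n k : ℝ) : Convex ℝ {z | 0 < LL p u v m n k z} := by
  intro z hz w hw a b ha hb hab
  simp only [Set.mem_ofPred_eq] at *
  rw [LL_comb p u v m n k z w a b hab]
  rcases ha.eq_or_lt with h | h
  · have : b = 1 := by linarith
    subst this; subst h; linarith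
  · have := mul_pos h hz
    have := mul_nonneg hb hw.le
    linarith

/-- the hexagon -/
def KK : Set (ℝ × ℝ) :=
  {z | 0 ≤ LL p u v (-1) 1 (-1) z ∧ 0 ≤ LL p u v (-9) 8 0 z ∧ 0 ≤ LL p u v (-15) 13 15 z ∧
    0 ≤ LL p u v 17 (-15) 15 z ∧ 0 ≤ LL p u v 6 (-5) 0 z ∧ 0 ≤ LL p u v 4 (-3) (-4) z}

lemma convex_KK : Convex ℝ (KK p u v) := by
  have h : KK p u v = {z | 0 ≤ LL p u v (-1) 1 (-1) z} ∩ ({z | 0 ≤ LL p u v (-9) 8 0 z} ∩
      ({z | 0 ≤ LL p u v (-15) 13 15 z} ∩ ({z | 0 ≤ LL p u v 17 (-15) 15 z} ∩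
      ({z | 0 ≤ LL p u v 6 (-5) 0 z} ∩ {z | 0 ≤ LL p u v 4 (-3) (-4) z})))) := by
    ext z; simp [KK]
  rw [h]
  exact (convex_LL _ _ _ _ _ _).inter ((convex_LL _ _ _ _ _ _).inter
    ((convex_LL _ _ _ _ _ _).inter ((convex_LL _ _ _ _ _ _).inter
    ((convex_LL _ _ _ _ _ _).inter (convex_LL _ _ _ _ _ _)))))

variable (hD : DD u v ≠ 0)

include hD

lemma hDR : (DD u v : ℝ) ≠ 0 := by exact_mod_cast hD

lemma rec1 (z : ℝ × ℝ) : z.1 = p.1 + cX p u v z * u.1 + cY p u v z * v.1 := by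
  have h := hDR u v hD
  have h2 : (DD u v : ℝ) = u.1 * v.2 - u.2 * v.1 := by simp [DD]
  simp only [cX, cY]
  field_simp
  rw [h2]; ring

lemma rec2 (z : ℝ × ℝ) : z.2 = p.2 + cX p u v z * u.2 + cY p u v z * v.2 := by
  have h := hDR u v hD
  have h2 : (DD u v : ℝ) = u.1 * v.2 - u.2 * v.1 := by simp [DD]
  simp only [cX, cY]
  field_simp
  rw [h2]; ring

lemma cX_ph (x y : ℤ) : cX p u v (re (ph p u v x y)) = x := by
  have h := hDR u v hD
  have h2 : (DD u v : ℝ) = u.1 * v.2 - u.2 * v.1 := by simp [DD]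
  simp only [cX, re, ph]
  push_cast
  rw [div_eq_iff h, h2]; ring

lemma cY_ph (x y : ℤ) : cY p u v (re (ph p u v x y)) = y := by
  have h := hDR u v hD
  have h2 : (DD u v : ℝ) = u.1 * v.2 - u.2 * v.1 := by simp [DD]
  simp only [cY, re, ph]
  push_cast
  rw [div_eq_iff h, h2]; ring

lemma LL_ph (m n k : ℝ) (x y : ℤ) : LL p u v m n k (re (ph p u v x y)) = m * x + n * y + k := by
  simp only [LL, cX_ph p u v hD, cY_ph p u v hD]

lemma eq_ph (q : ℤ × ℤ) (x y : ℤ) (hx : cX p u v (re q) = x) (hy : cY p u v (re q) = y) :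
    q = ph p u v x y := by
  have h1 := rec1 p u v hD (re q)
  have h2 := rec2 p u v hD (re q)
  rw [hx, hy] at h1 h2
  simp only [re] at h1 h2
  apply Prod.ext
  · simp only [ph]; exact_mod_cast h1
  · simp only [ph]; exact_mod_cast h2

lemma ph_inj (x y x' y' : ℤ) (h : ph p u v x y = ph p u v x' y') : x = x' ∧ y = y' := by
  have h1 := cX_ph p u v hD x y
  have h2 := cY_ph p u v hD x y
  rw [h, cX_ph p u v hD] at h1
  rw [h, cY_ph p u v hD] at h2
  exact ⟨by exact_mod_cast h1.symm, by exact_mod_cast h2.symm⟩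

omit hD in
/-- bounds for the coordinates in the hexagon -/
lemma bounds (z : ℝ × ℝ) (hz : z ∈ KK p u v) :
    7 ≤ cX p u v z ∧ cX p u v z ≤ 105 ∧ 8 ≤ cY p u v z ∧ cY p u v z ≤ 120 := by
  obtain ⟨h1, h2, h3, h4, h5, h6⟩ := hz
  simp only [LL] at h1 h2 h3 h4 h5 h6
  refine ⟨?_, ?_, ?_, ?_⟩ <;> linarith

/-- a bound for the lattice points -/
lemma bound_lattice (q : ℤ × ℤ) (hq : re q ∈ KK p u v) :
    |q.1| ≤ |p.1| + 105 * |u.1| + 120 * |v.1| ∧ |q.2| ≤ |p.2| + 105 * |u.2| + 120 * |v.2| := by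
  obtain ⟨h1, h2, h3, h4⟩ := bounds p u v _ hq
  have key : ∀ (a b c X Y : ℝ), 7 ≤ X → X ≤ 105 → 8 ≤ Y → Y ≤ 120 →
      |a + X * b + Y * c| ≤ |a| + 105 * |b| + 120 * |c| := by
    intro a b c X Y h1 h2 h3 h4
    calc |a + X * b + Y * c| ≤ |a + X * b| + |Y * c| := abs_add_le _ _
      _ ≤ |a| + |X * b| + |Y * c| := by gcongr; exact abs_add_le _ _
      _ = |a| + |X| * |b| + |Y| * |c| := by rw [abs_mul, abs_mul]
      _ ≤ |a| + 105 * |b| + 120 * |c| := by
        have hX : |X| ≤ 105 := by rw [abs_of_nonneg (by linarith)]; exact h2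
        have hY : |Y| ≤ 120 := by rw [abs_of_nonneg (by linarith)]; exact h4
        gcongr
  have e1 := rec1 p u v hD (re q)
  have e2 := rec2 p u v hD (re q)
  constructor
  · have := key p.1 u.1 v.1 _ _ h1 h2 h3 h4
    rw [← e1] at this
    simp only [re] at this
    exact_mod_cast this
  · have := key p.2 u.2 v.2 _ _ h1 h2 h3 h4
    rw [← e2] at this
    simp only [re] at this
    exact_mod_cast this

/-- the lattice points of the hexagon form a finite set -/
lemma exists_F0 : ∃ F : Finset (ℤ × ℤ), ∀ q, q ∈ F ↔ re q ∈ KK p u v := by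
  classical
  set N := |p.1| + 105 * |u.1| + 120 * |v.1| with hN
  set M := |p.2| + 105 * |u.2| + 120 * |v.2| with hM
  refine ⟨(Finset.Icc (-N) N ×ˢ Finset.Icc (-M) M).filter (fun q => re q ∈ KK p u v), ?_⟩
  intro q
  simp only [Finset.mem_filter, Finset.mem_product, Finset.mem_Icc]
  constructor
  · exact fun h => h.2
  · intro h
    obtain ⟨h1, h2⟩ := bound_lattice p u v hD q h
    rw [abs_le] at h1 h2
    exact ⟨⟨h1, h2⟩, h⟩

/-- the vertices of the hexagon -/
def IsVtx (x y : ℤ) : Prop :=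
  (x = 7 ∧ y = 8) ∨ (x = 8 ∧ y = 9) ∨ (x = 40 ∧ y = 45) ∨ (x = 105 ∧ y = 120) ∨
    (x = 15 ∧ y = 18) ∨ (x = 10 ∧ y = 12)

/-- every vertex is exposed -/
lemma exposed (x y : ℤ) (h : IsVtx x y) : ∃ m n k : ℝ, m * x + n * y + k = 0 ∧
    ∀ q : ℤ × ℤ, re q ∈ KK p u v → q ≠ ph p u v x y → 0 < LL p u v m n k (re q) := by
  have fin : ∀ (m n k m' n' k' : ℝ), m * x + n * y + k = 0 → m' * x + n' * y + k' = 0 →
      m * n' - n * m' ≠ 0 → ∀ q : ℤ × ℤ, 0 ≤ LL p u v m n k (re q) →
      0 ≤ LL p u v m' n' k' (re q) → q ≠ ph p u v x y →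
      0 < LL p u v (m + m') (n + n') (k + k') (re q) := by
    intro m n k m' n' k' e1 e2 hd q h1 h2 hq
    have hs : LL p u v (m + m') (n + n') (k + k') (re q) =
        LL p u v m n k (re q) + LL p u v m' n' k' (re q) := by simp only [LL]; ring
    rw [hs]
    by_contra hc
    have g1 : LL p u v m n k (re q) = 0 := by linarith
    have g2 : LL p u v m' n' k' (re q) = 0 := by linarith
    simp only [LL] at g1 g2
    apply hq
    apply eq_ph p u v hD
    · have : (m * n' - n * m') * (cX p u v (re q) - x) = 0 := by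
        linear_combination n' * g1 - n * g2 - n' * e1 + n * e2
      rcases mul_eq_zero.mp this with h | h
      · exact absurd h hd
      · linarith
    · have : (m * n' - n * m') * (cY p u v (re q) - y) = 0 := by
        linear_combination m * g2 - m' * g1 - m * e2 + m' * e1
      rcases mul_eq_zero.mp this with h | h
      · exact absurd h hd
      · linarith
  rcases h with h | h | h | h | h | h <;> obtain ⟨rfl, rfl⟩ := h
  · -- (7,8) : edges 1 and 6
    refine ⟨-1 + 4, 1 + -3, -1 + -4, by norm_num, fun q hq hne => ?_⟩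
    exact fin (-1) 1 (-1) 4 (-3) (-4) (by norm_num) (by norm_num) (by norm_num) q hq.1
      hq.2.2.2.2.2 hne
  · -- (8,9) : edges 1 and 2
    refine ⟨-1 + -9, 1 + 8, -1 + 0, by norm_num, fun q hq hne => ?_⟩
    exact fin (-1) 1 (-1) (-9) 8 0 (by norm_num) (by norm_num) (by norm_num) q hq.1
      hq.2.1 hne
  · -- (40,45) : edges 2 and 3
    refine ⟨-9 + -15, 8 + 13, 0 + 15, by norm_num, fun q hq hne => ?_⟩
    exact fin (-9) 8 0 (-15) 13 15 (by norm_num) (by norm_num) (by norm_num) q hq.2.1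
      hq.2.2.1 hne
  · -- (105,120) : edges 3 and 4
    refine ⟨-15 + 17, 13 + -15, 15 + 15, by norm_num, fun q hq hne => ?_⟩
    exact fin (-15) 13 15 17 (-15) 15 (by norm_num) (by norm_num) (by norm_num) q hq.2.2.1
      hq.2.2.2.1 hne
  · -- (15,18) : edges 4 and 5
    refine ⟨17 + 6, -15 + -5, 15 + 0, by norm_num, fun q hq hne => ?_⟩
    exact fin 17 (-15) 15 6 (-5) 0 (by norm_num) (by norm_num) (by norm_num) q hq.2.2.2.1
      hq.2.2.2.2.1 hne
  · -- (10,12) : edges 5 and 6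
    refine ⟨6 + 4, -5 + -3, 0 + -4, by norm_num, fun q hq hne => ?_⟩
    exact fin 6 (-5) 0 4 (-3) (-4) (by norm_num) (by norm_num) (by norm_num) q hq.2.2.2.2.1
      hq.2.2.2.2.2 hne

/-- the lattice points of the hexagon without some of the vertices form a convex lattice set -/
lemma convexSet (F S : Finset (ℤ × ℤ)) (hF : ∀ q, q ∈ F ↔ re q ∈ KK p u v)
    (hS : ∀ s ∈ S, ∃ x y, IsVtx x y ∧ s = ph p u v x y) : IsConvexLatticeSet (F \ S) := by
  intro q hq
  have hsub : re '' ((F \ S : Finset (ℤ × ℤ)) : Set (ℤ × ℤ)) ⊆ KK p u v := by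
    rintro _ ⟨q', hq', rfl⟩
    simp only [Finset.coe_sdiff, Set.mem_sdiff, Finset.mem_coe] at hq'
    exact (hF q').1 hq'.1
  have h1 : re q ∈ KK p u v := (convexHull_min hsub (convex_KK p u v)) hq
  rw [Finset.mem_sdiff]
  refine ⟨(hF q).2 h1, fun hs => ?_⟩
  obtain ⟨x, y, hv, he⟩ := hS q hs
  obtain ⟨m, n, k, e0, hpos⟩ := exposed p u v hD x y hv
  have hsub2 : re '' ((F \ S : Finset (ℤ × ℤ)) : Set (ℤ × ℤ)) ⊆ {z | 0 < LL p u v m n k z} := by
    rintro _ ⟨q', hq', rfl⟩
    simp only [Finset.coe_sdiff, Set.mem_sdiff, Finset.mem_coe] at hq'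
    refine hpos q' ((hF q').1 hq'.1) ?_
    rintro rfl
    apply hq'.2
    rw [← he]; exact hs
  have h2 : re q ∈ {z | 0 < LL p u v m n k z} := (convexHull_min hsub2 (convex_LL' p u v m n k)) hq
  simp only [Set.mem_ofPred_eq, he, LL_ph p u v hD, e0, lt_irrefl] at h2

omit hD in
/-- the value of an affine function in terms of the values at the three points -/
lemma aff_val (a b c : ℝ) (z : ℝ × ℝ) (X Y : ℝ) (h1 : z.1 = p.1 + X * u.1 + Y * v.1)
    (h2 : z.2 = p.2 + X * u.2 + Y * v.2) :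
    a * z.1 + b * z.2 - c = (1 - X - Y) * (a * p.1 + b * p.2 - c) +
      X * (a * (p.1 + u.1) + b * (p.2 + u.2) - c) + Y * (a * (p.1 + v.1) + b * (p.2 + v.2) - c) := by
  rw [h1, h2]; ring

/-- the three points are not on a line -/
lemma not_all (a b c : ℝ) (hab : (a, b) ≠ (0, 0)) (h0 : a * p.1 + b * p.2 = c)
    (h1 : a * (p.1 + u.1) + b * (p.2 + u.2) = c) (h2 : a * (p.1 + v.1) + b * (p.2 + v.2) = c) :
    False := by
  have h := hDR u v hD
  have hd : (DD u v : ℝ) = u.1 * v.2 - u.2 * v.1 := by simp [DD]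
  have e1 : a * u.1 + b * u.2 = 0 := by linarith
  have e2 : a * v.1 + b * v.2 = 0 := by linarith
  have ha : a * (DD u v : ℝ) = 0 := by rw [hd]; linear_combination v.2 * e1 - u.2 * e2
  have hb : b * (DD u v : ℝ) = 0 := by rw [hd]; linear_combination u.1 * e2 - v.1 * e1
  apply hab
  rw [Prod.mk.injEq]
  exact ⟨(mul_eq_zero.mp ha).resolve_right h, (mul_eq_zero.mp hb).resolve_right h⟩

/-- the class -/
lemma inClass (F S : Finset (ℤ × ℤ)) (hF : ∀ q, q ∈ F ↔ re q ∈ KK p u v)
    (hS : ∀ s ∈ S, ∃ x y, IsVtx x y ∧ s = ph p u v x y) :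
    InClass {p, (p.1 + u.1, p.2 + u.2), (p.1 + v.1, p.2 + v.2)} (F \ S) := by
  refine ⟨convexSet p u v hD F S hF hS, ?_⟩
  intro r hr r' hr' hne a b c hab h1 h2 q hq h3
  have hq2 : re q ∈ KK p u v := (hF q).1 (Finset.mem_sdiff.1 hq).1
  obtain ⟨b1, b2, b3, b4⟩ := bounds p u v _ hq2
  have key := aff_val p u v a b c (re q) _ _ (rec1 p u v hD (re q)) (rec2 p u v hD (re q))
  set X := cX p u v (re q)
  set Y := cY p u v (re q)
  simp only [line, Set.mem_ofPred_eq] at h1 h2 h3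
  have h3' : a * (re q).1 + b * (re q).2 - c = 0 := by linarith
  rw [h3'] at key
  have main : ∀ f0 f1 f2 : ℝ, f0 = a * p.1 + b * p.2 - c →
      f1 = a * (p.1 + u.1) + b * (p.2 + u.2) - c → f2 = a * (p.1 + v.1) + b * (p.2 + v.2) - c →
      ((f0 = 0 ∧ f1 = 0) ∨ (f0 = 0 ∧ f2 = 0) ∨ (f1 = 0 ∧ f2 = 0)) → False := by
    intro f0 f1 f2 e0 e1 e2 hh
    rw [← e0, ← e1, ← e2] at key
    have hall : f0 = 0 ∧ f1 = 0 ∧ f2 = 0 := by
      rcases hh with ⟨g1, g2⟩ | ⟨g1, g2⟩ | ⟨g1, g2⟩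
      · refine ⟨g1, g2, ?_⟩
        rw [g1, g2] at key
        have : Y * f2 = 0 := by linarith
        exact (mul_eq_zero.mp this).resolve_left (by linarith)
      · refine ⟨g1, ?_, g2⟩
        rw [g1, g2] at key
        have : X * f1 = 0 := by linarith
        exact (mul_eq_zero.mp this).resolve_left (by linarith)
      · refine ⟨?_, g1, g2⟩
        rw [g1, g2] at key
        have : (1 - X - Y) * f0 = 0 := by linarith
        exact (mul_eq_zero.mp this).resolve_left (by linarith)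
    exact not_all p u v hD a b c hab (by linarith [hall.1]) (by linarith [hall.2.1])
      (by linarith [hall.2.2])
  apply main _ _ _ rfl rfl rfl
  simp only [Finset.mem_insert, Finset.mem_singleton] at hr hr'
  rcases hr with rfl | rfl | rfl <;> rcases hr' with rfl | rfl | rfl <;>
    simp only [re] at h1 h2 <;> push_cast at h1 h2
  · exact absurd rfl hne
  · left; exact ⟨by linarith, by linarith⟩
  · right; left; exact ⟨by linarith, by linarith⟩
  · left; exact ⟨by linarith, by linarith⟩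
  · exact absurd rfl hne
  · right; right; exact ⟨by linarith, by linarith⟩
  · right; left; exact ⟨by linarith, by linarith⟩
  · right; right; exact ⟨by linarith, by linarith⟩
  · exact absurd rfl hne

end Core

/-- counting the points on a line -/
lemma count_sdiff (F S : Finset (ℤ × ℤ)) (hSF : S ⊆ F) (ℓ : Set (ℝ × ℝ))
    [DecidablePred (fun q : ℤ × ℤ => re q ∈ ℓ)] :
    Set.ncard {q : ℤ × ℤ | q ∈ F \ S ∧ re q ∈ ℓ} + (S.filter (fun q => re q ∈ ℓ)).card =
      (F.filter (fun q => re q ∈ ℓ)).card := by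
  have h1 : {q : ℤ × ℤ | q ∈ F \ S ∧ re q ∈ ℓ} =
      (((F \ S).filter (fun q => re q ∈ ℓ) : Finset (ℤ × ℤ)) : Set (ℤ × ℤ)) := by
    ext q; simp
  rw [h1, Set.ncard_coe_finset, ← Finset.card_union_of_disjoint, ← Finset.filter_union,
    Finset.sdiff_union_of_subset hSF]
  exact Finset.disjoint_filter_filter Finset.sdiff_disjoint

lemma card_filter3 (a b c : ℤ × ℤ) (hab : a ≠ b) (hac : a ≠ c) (hbc : b ≠ c) (Q : ℤ × ℤ → Prop)
    [DecidablePred Q] : (({a, b, c} : Finset (ℤ × ℤ)).filter Q).card =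
      (if Q a then 1 else 0) + ((if Q b then 1 else 0) + (if Q c then 1 else 0)) := by
  rw [Finset.card_filter, Finset.sum_insert (by simp [hab, hac]), Finset.sum_insert (by simp [hbc]),
    Finset.sum_singleton]

/-- The three alternate vertices of the hexagon. -/
def SA (p u v : ℤ × ℤ) : Finset (ℤ × ℤ) := {ph p u v 7 8, ph p u v 40 45, ph p u v 15 18}

/-- The other three vertices of the hexagon. -/
def SB (p u v : ℤ × ℤ) : Finset (ℤ × ℤ) := {ph p u v 105 120, ph p u v 8 9, ph p u v 10 12}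

lemma card_SA (p u v : ℤ × ℤ) (hD : DD u v ≠ 0) (Q : ℤ × ℤ → Prop) [DecidablePred Q] :
    ((SA p u v).filter Q).card = (if Q (ph p u v 7 8) then 1 else 0) +
      ((if Q (ph p u v 40 45) then 1 else 0) + (if Q (ph p u v 15 18) then 1 else 0)) := by
  apply card_filter3 <;> intro h <;> have := ph_inj p u v hD _ _ _ _ h <;> omega

lemma card_SB (p u v : ℤ × ℤ) (hD : DD u v ≠ 0) (Q : ℤ × ℤ → Prop) [DecidablePred Q] :
    ((SB p u v).filter Q).card = (if Q (ph p u v 105 120) then 1 else 0) +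
      ((if Q (ph p u v 8 9) then 1 else 0) + (if Q (ph p u v 10 12) then 1 else 0)) := by
  apply card_filter3 <;> intro h <;> have := ph_inj p u v hD _ _ _ _ h <;> omega

lemma vtx_mem (p u v : ℤ × ℤ) (hD : DD u v ≠ 0) (x y : ℤ) (h : IsVtx x y) :
    re (ph p u v x y) ∈ KK p u v := by
  simp only [KK, Set.mem_ofPred_eq, LL_ph p u v hD]
  rcases h with h | h | h | h | h | h <;> obtain ⟨rfl, rfl⟩ := h <;> norm_num

lemma SA_vtx (p u v : ℤ × ℤ) : ∀ s ∈ SA p u v, ∃ x y, IsVtx x y ∧ s = ph p u v x y := by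
  intro s hs
  simp only [SA, Finset.mem_insert, Finset.mem_singleton] at hs
  rcases hs with rfl | rfl | rfl
  · exact ⟨7, 8, by simp [IsVtx], rfl⟩
  · exact ⟨40, 45, by simp [IsVtx], rfl⟩
  · exact ⟨15, 18, by simp [IsVtx], rfl⟩

lemma SB_vtx (p u v : ℤ × ℤ) : ∀ s ∈ SB p u v, ∃ x y, IsVtx x y ∧ s = ph p u v x y := by
  intro s hs
  simp only [SB, Finset.mem_insert, Finset.mem_singleton] at hs
  rcases hs with rfl | rfl | rfl
  · exact ⟨105, 120, by simp [IsVtx], rfl⟩
  · exact ⟨8, 9, by simp [IsVtx], rfl⟩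
  · exact ⟨10, 12, by simp [IsVtx], rfl⟩

/-- a vertex is on a line if and only if the affine combination of the values vanishes -/
lemma on_line (p u v : ℤ × ℤ) (a b c : ℝ) (x y : ℤ) :
    re (ph p u v x y) ∈ line a b c ↔
      (1 - x - y) * (a * p.1 + b * p.2 - c) + x * (a * (p.1 + u.1) + b * (p.2 + u.2) - c) +
        y * (a * (p.1 + v.1) + b * (p.2 + v.2) - c) = 0 := by
  simp only [line, Set.mem_ofPred_eq, re, ph]
  push_cast
  constructor <;> intro h <;> linarith

lemma same_filter (p u v : ℤ × ℤ) (hD : DD u v ≠ 0) (a b c : ℝ)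
    [DecidablePred (fun q : ℤ × ℤ => re q ∈ line a b c)]
    (h : re p ∈ line a b c ∨ re (p.1 + u.1, p.2 + u.2) ∈ line a b c ∨
      re (p.1 + v.1, p.2 + v.2) ∈ line a b c) :
    ((SA p u v).filter (fun q => re q ∈ line a b c)).card =
      ((SB p u v).filter (fun q => re q ∈ line a b c)).card := by
  rw [card_SA p u v hD, card_SB p u v hD]
  simp only [on_line]
  set f0 := a * (p.1 : ℝ) + b * p.2 - c with h0
  set f1 := a * ((p.1 : ℝ) + u.1) + b * (p.2 + u.2) - c with h1
  set f2 := a * ((p.1 : ℝ) + v.1) + b * (p.2 + v.2) - c with h2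
  have h' : f0 = 0 ∨ f1 = 0 ∨ f2 = 0 := by
    rcases h with h | h | h <;> simp only [line, Set.mem_ofPred_eq, re] at h <;> push_cast at h
    · left; linarith
    · right; left; linarith
    · right; right; linarith
  rcases h' with g | g | g
  · have e1 : ((1 - (7 : ℤ) - (8 : ℤ)) * f0 + (7 : ℤ) * f1 + (8 : ℤ) * f2 = 0) ↔
        ((1 - (105 : ℤ) - (120 : ℤ)) * f0 + (105 : ℤ) * f1 + (120 : ℤ) * f2 = 0) := by
      rw [g]; push_cast; constructor <;> intro h <;> linarith
    have e2 : ((1 - (40 : ℤ) - (45 : ℤ)) * f0 + (40 : ℤ) * f1 + (45 : ℤ) * f2 = 0) ↔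
        ((1 - (8 : ℤ) - (9 : ℤ)) * f0 + (8 : ℤ) * f1 + (9 : ℤ) * f2 = 0) := by
      rw [g]; push_cast; constructor <;> intro h <;> linarith
    have e3 : ((1 - (15 : ℤ) - (18 : ℤ)) * f0 + (15 : ℤ) * f1 + (18 : ℤ) * f2 = 0) ↔
        ((1 - (10 : ℤ) - (12 : ℤ)) * f0 + (10 : ℤ) * f1 + (12 : ℤ) * f2 = 0) := by
      rw [g]; push_cast; constructor <;> intro h <;> linarith
    simp only [e1, e2, e3]
  · have e1 : ((1 - (7 : ℤ) - (8 : ℤ)) * f0 + (7 : ℤ) * f1 + (8 : ℤ) * f2 = 0) ↔
        ((1 - (10 : ℤ) - (12 : ℤ)) * f0 + (10 : ℤ) * f1 + (12 : ℤ) * f2 = 0) := by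
      rw [g]; push_cast; constructor <;> intro h <;> linarith
    have e2 : ((1 - (40 : ℤ) - (45 : ℤ)) * f0 + (40 : ℤ) * f1 + (45 : ℤ) * f2 = 0) ↔
        ((1 - (105 : ℤ) - (120 : ℤ)) * f0 + (105 : ℤ) * f1 + (120 : ℤ) * f2 = 0) := by
      rw [g]; push_cast; constructor <;> intro h <;> linarith
    have e3 : ((1 - (15 : ℤ) - (18 : ℤ)) * f0 + (15 : ℤ) * f1 + (18 : ℤ) * f2 = 0) ↔
        ((1 - (8 : ℤ) - (9 : ℤ)) * f0 + (8 : ℤ) * f1 + (9 : ℤ) * f2 = 0) := by
      rw [g]; push_cast; constructor <;> intro h <;> linarith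
    simp only [e1, e2, e3]
    ring
  · have e1 : ((1 - (7 : ℤ) - (8 : ℤ)) * f0 + (7 : ℤ) * f1 + (8 : ℤ) * f2 = 0) ↔
        ((1 - (8 : ℤ) - (9 : ℤ)) * f0 + (8 : ℤ) * f1 + (9 : ℤ) * f2 = 0) := by
      rw [g]; push_cast; constructor <;> intro h <;> linarith
    have e2 : ((1 - (40 : ℤ) - (45 : ℤ)) * f0 + (40 : ℤ) * f1 + (45 : ℤ) * f2 = 0) ↔
        ((1 - (10 : ℤ) - (12 : ℤ)) * f0 + (10 : ℤ) * f1 + (12 : ℤ) * f2 = 0) := by
      rw [g]; push_cast; constructor <;> intro h <;> linarith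
    have e3 : ((1 - (15 : ℤ) - (18 : ℤ)) * f0 + (15 : ℤ) * f1 + (18 : ℤ) * f2 = 0) ↔
        ((1 - (105 : ℤ) - (120 : ℤ)) * f0 + (105 : ℤ) * f1 + (120 : ℤ) * f2 = 0) := by
      rw [g]; push_cast; constructor <;> intro h <;> linarith
    simp only [e1, e2, e3]
    ring

/-- the case of the three points `p, p + u, p + v` -/
lemma main (p u v : ℤ × ℤ) (hD : DD u v ≠ 0) :
    ∃ F₁ F₂ : Finset (ℤ × ℤ),
      InClass {p, (p.1 + u.1, p.2 + u.2), (p.1 + v.1, p.2 + v.2)} F₁ ∧
      InClass {p, (p.1 + u.1, p.2 + u.2), (p.1 + v.1, p.2 + v.2)} F₂ ∧ F₁ ≠ F₂ ∧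
      ∀ r ∈ ({p, (p.1 + u.1, p.2 + u.2), (p.1 + v.1, p.2 + v.2)} : Finset (ℤ × ℤ)),
        SameXRay r F₁ F₂ := by
  classical
  obtain ⟨F, hF⟩ := exists_F0 p u v hD
  have hA : SA p u v ⊆ F := by
    intro s hs
    obtain ⟨x, y, hv, rfl⟩ := SA_vtx p u v s hs
    exact (hF _).2 (vtx_mem p u v hD x y hv)
  have hB : SB p u v ⊆ F := by
    intro s hs
    obtain ⟨x, y, hv, rfl⟩ := SB_vtx p u v s hs
    exact (hF _).2 (vtx_mem p u v hD x y hv)
  refine ⟨F \ SB p u v, F \ SA p u v, inClass p u v hD F _ hF (SB_vtx p u v),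
    inClass p u v hD F _ hF (SA_vtx p u v), ?_, ?_⟩
  · intro h
    have h1 : ph p u v 7 8 ∈ SA p u v := by simp [SA]
    have h2 : ph p u v 7 8 ∈ F \ SB p u v := by
      rw [Finset.mem_sdiff]
      refine ⟨hA h1, ?_⟩
      intro h3
      simp only [SB, Finset.mem_insert, Finset.mem_singleton] at h3
      rcases h3 with h3 | h3 | h3 <;> have := ph_inj p u v hD _ _ _ _ h3 <;> omega
    rw [h, Finset.mem_sdiff] at h2
    exact h2.2 h1
  · intro r hr a b c _ hrl
    have hor : re p ∈ line a b c ∨ re (p.1 + u.1, p.2 + u.2) ∈ line a b c ∨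
        re (p.1 + v.1, p.2 + v.2) ∈ line a b c := by
      simp only [Finset.mem_insert, Finset.mem_singleton] at hr
      rcases hr with rfl | rfl | rfl
      · left; exact hrl
      · right; left; exact hrl
      · right; right; exact hrl
    have e := same_filter p u v hD a b c hor
    have e1 := count_sdiff F (SB p u v) hB (line a b c)
    have e2 := count_sdiff F (SA p u v) hA (line a b c)
    omega

/-- **Discrete point X-rays at three noncollinear lattice points do not determine convex lattice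
sets.**  For every set `P` of three noncollinear lattice points there are two distinct sets in the
class `𝒞_P` whose discrete point X-rays at every point of `P` coincide. -/
theorem result : ∀ P : Finset (ℤ × ℤ), P.card = 3 →
    ¬ Collinear ℝ (re '' (P : Set (ℤ × ℤ))) →
    ∃ F₁ F₂ : Finset (ℤ × ℤ), InClass P F₁ ∧ InClass P F₂ ∧ F₁ ≠ F₂ ∧
      ∀ p ∈ P, SameXRay p F₁ F₂ := by
  intro P hP hcol
  obtain ⟨p, q, r, hpq, hpr, hqr, rfl⟩ := Finset.card_eq_three.1 hP
  have hD : DD (q.1 - p.1, q.2 - p.2) (r.1 - p.1, r.2 - p.2) ≠ 0 := by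
    intro h0
    apply hcol
    have h0' : ((q.1 : ℝ) - p.1) * (r.2 - p.2) - (q.2 - p.2) * (r.1 - p.1) = 0 := by
      simp only [DD] at h0
      exact_mod_cast h0
    rw [collinear_iff_of_mem (p₀ := re p) (by simp)]
    refine ⟨re q - re p, ?_⟩
    intro z hz
    have hne : (q.1 : ℝ) - p.1 ≠ 0 ∨ (q.2 : ℝ) - p.2 ≠ 0 := by
      by_contra hc
      push Not at hc
      apply hpq
      apply Prod.ext
      · have : (p.1 : ℝ) = q.1 := by linarith [hc.1]
        exact_mod_cast this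
      · have : (p.2 : ℝ) = q.2 := by linarith [hc.2]
        exact_mod_cast this
    simp only [Finset.coe_insert, Finset.coe_singleton, Set.image_insert_eq,
      Set.image_singleton, Set.mem_insert_iff, Set.mem_singleton_iff] at hz
    rcases hz with rfl | rfl | rfl
    · exact ⟨0, by simp⟩
    · exact ⟨1, by simp⟩
    · rcases hne with hne | hne
      · refine ⟨((r.1 : ℝ) - p.1) / (q.1 - p.1), ?_⟩
        apply Prod.ext
        · simp only [re, vadd_eq_add, Prod.fst_add, Prod.smul_fst, Prod.fst_sub, smul_eq_mul]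
          field_simp; ring
        · simp only [re, vadd_eq_add, Prod.snd_add, Prod.smul_snd, Prod.snd_sub, smul_eq_mul]
          field_simp; linarith
      · refine ⟨((r.2 : ℝ) - p.2) / (q.2 - p.2), ?_⟩
        apply Prod.ext
        · simp only [re, vadd_eq_add, Prod.fst_add, Prod.smul_fst, Prod.fst_sub, smul_eq_mul]
          field_simp; linarith
        · simp only [re, vadd_eq_add, Prod.snd_add, Prod.smul_snd, Prod.snd_sub, smul_eq_mul]
          field_simp; ring
  have h := main p (q.1 - p.1, q.2 - p.2) (r.1 - p.1, r.2 - p.2) hD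
  have e1 : ((p.1 + (q.1 - p.1), p.2 + (q.2 - p.2)) : ℤ × ℤ) = q := by ext <;> simp
  have e2 : ((p.1 + (r.1 - p.1), p.2 + (r.2 - p.2)) : ℤ × ℤ) = r := by ext <;> simp
  simp only [e1, e2] at h
  exact h

end Pool.Agent.N195.Shelf.ThreePoints259ac5
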